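import Pool.Agent.Q315.CC.Plain

/-!
# The movable cone conjecture for varieties with trivial canonical class reduces to Calabi–Yau manifolds

Let `Y` be a smooth projective complex variety with `K_Y ≡ 0`, and `X → Y` a finite étale Galois cover
which is a product of an abelian variety, irreducible holomorphic symplectic manifolds and strict
Calabi–Yau manifolds (Beauville–Bogomolov). For abelian varieties and irreducible holomorphic symplectic
manifolds the movable cone conjecture is known (Prendergast-Smith; Markman, Amerik–Verbitsky). We show: if
it holds for the strict Calabi–Yau factors, then it holds for `Y`. So the movable cone conjecture for all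
`Y` is equivalent to the movable cone conjecture for strict Calabi–Yau manifolds, and it holds for all
étale quotients of products of an abelian variety and irreducible holomorphic symplectic manifolds.

The cone `Mov(X)^e` contains classes of divisors which are ample on different birational models, and
`Bir(X)` is in general not an arithmetic group. The descent along `X → Y`
(`Pool.Agent.Q315.CC.descent`) works for every group of automorphisms of a lattice and a cone: if `Π` is a
rational polyhedral cone whose translates under `Bir(X)` cover `Mov(X)^e`, the translates of `Π` which
contain a `G`-invariant class in the interior of the movable cone define homomorphisms `g ↦ γ⁻¹ g γ` of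
the Galois group `G` to `Bir(X)`; by the Siegel property (`Pool.Agent.Q315.CC.siegel`) and the finiteness of
`H^1(G, K)` for the algebraic group `K` of the elements of `Bir(X)` which act trivially on `N^1(X)` (they
are automorphisms, as they preserve an ample class) there are finitely many up to conjugation by `K`, and
two translates with conjugate homomorphisms differ by an element of `Bir(X)` which commutes with `G`, so
descends to `Bir(Y)`. The exact fundamental domain comes from `Pool.Agent.Y167.CData.domain`.

In the definitions of `Pool.Agent.Q315.CC.Plain`, for a variety `X`: `ℝ ^ n` is `N^1(X)`, `ℤ ^ n` are the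
integral classes, `N` is the closure of `Mov(X)`, `C` is the effective movable cone, `deg` is the
intersection number with a power of an ample class, `Γ` is `Bir(X)`, acting by push-forward. `HasDomain`
is the statement of Q1 for `X`.
-/

set_option autoImplicit false

namespace Pool.Agent.Results.MP_e39d36_ag.MovableReductionToCalabiYau

open Pool.Agent.Q315.CC.Pl

/-- `Y` has a finite étale Galois cover `X → Y` (with group `G` and pullback of classes `q`) such that `X`
is the product of varieties with the property `P`. -/
def HasCover {V : Type*} (d : V → ConeSpace) (P : V → Prop) (Y : V) : Prop :=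
  ∃ (X : V) (G : Subgroup (d X).Γ) (q : (Fin (d Y).n → ℝ) → (Fin (d X).n → ℝ)),
    IsQuotient (d X) (d Y) G q ∧
    ∃ (m : ℕ) (Z : Fin m → V) (p : ∀ i, (Fin (d (Z i)).n → ℝ) → (Fin (d X).n → ℝ)),
      IsProduct (d X) (fun i => d (Z i)) p ∧ ∀ i, P (Z i)

/-- The known facts about the class `V` of the smooth projective varieties with numerically trivial
canonical class, with the movable cones and the groups of birational automorphisms: the elementary
properties, the decomposition theorem, and the movable cone conjecture for abelian varieties (`Ab`) and
irreducible holomorphic symplectic manifolds (`HK`); `CY` are the strict Calabi–Yau manifolds. -/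
structure IsMovableTheory {V : Type*} (d : V → ConeSpace) (Ab HK CY : V → Prop) : Prop where
  data : ∀ X, IsConeSpace (d X)
  decomposition : ∀ Y, HasCover d (fun Z => Ab Z ∨ HK Z ∨ CY Z) Y
  abelian : ∀ X, Ab X → HasDomain (d X)
  symplectic : ∀ X, HK X → HasDomain (d X)

/-- **The movable cone conjecture for varieties with trivial canonical class reduces to strict Calabi–Yau
manifolds.** -/
theorem result {V : Type*} (d : V → ConeSpace) (Ab HK CY : V → Prop)
    (h : IsMovableTheory d Ab HK CY) :
    (∀ Y, HasCover d (fun Z => Ab Z ∨ HK Z ∨ (CY Z ∧ HasDomain (d Z))) Y → HasDomain (d Y)) ∧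
    ((∀ Y, HasDomain (d Y)) ↔ ∀ X, CY X → HasDomain (d X)) := by
  have h1 : ∀ Y, HasCover d (fun Z => Ab Z ∨ HK Z ∨ (CY Z ∧ HasDomain (d Z))) Y →
      HasDomain (d Y) := by
    rintro Y ⟨X, G, q, hq, m, Z, p, hp, hZ⟩
    refine quotient (h.data X) (h.data Y) hq (product (h.data X) (fun i => h.data (Z i)) hp fun i => ?_)
    rcases hZ i with h2 | h2 | h2
    · exact h.abelian _ h2
    · exact h.symplectic _ h2
    · exact h2.2
  refine ⟨h1, fun h2 X _ => h2 X, fun h2 Y => h1 Y ?_⟩
  obtain ⟨X, G, q, hq, m, Z, p, hp, hZ⟩ := h.decomposition Y
  refine ⟨X, G, q, hq, m, Z, p, hp, fun i => ?_⟩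
  rcases hZ i with h3 | h3 | h3
  · exact Or.inl h3
  · exact Or.inr (Or.inl h3)
  · exact Or.inr (Or.inr ⟨h3, h2 _ h3⟩)

end Pool.Agent.Results.MP_e39d36_ag.MovableReductionToCalabiYau
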